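import Pool.Agent.Helper26.CL.St

/-! # Project CM, module Dens: sines are dense in the discrete `L¹` norm -/

set_option autoImplicit false

open scoped BigOperators ENNReal Topology
open Pool.LE Pool.NL Filter

namespace Pool.CN

namespace DensM

/-- sums over the box of a function of one coordinate -/
theorem sum_coord (d n : ℕ) (i : Fin d) (f : ℤ → ℝ) :
    ∑ b ∈ Bn d n, f (b i) = (n : ℝ) ^ (d - 1) * ∑ j ∈ Finset.Ico (0 : ℤ) n, f j := by
  classical
  have h := Finset.prod_univ_sum (fun _ : Fin d => Finset.Ico (0 : ℤ) n)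
    (fun (k : Fin d) (j : ℤ) => if k = i then f j else 1)
  have h1 : ∀ b : Fin d → ℤ, ∏ k : Fin d, (if k = i then f (b k) else 1) = f (b i) := by
    intro b
    rw [Finset.prod_ite_eq' Finset.univ i (fun k => f (b k)), if_pos (Finset.mem_univ i)]
  have h2 : ∑ b ∈ Bn d n, f (b i) = ∑ b ∈ Fintype.piFinset (fun _ : Fin d => Finset.Ico (0 : ℤ) n),
      ∏ k : Fin d, (if k = i then f (b k) else 1) := by
    refine Finset.sum_congr rfl fun b _ => ?_
    rw [h1]
  rw [h2, ← h, ← Finset.mul_prod_erase Finset.univ _ (Finset.mem_univ i), mul_comm]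
  congr 1
  · have h3 : ∀ k ∈ Finset.univ.erase i, (∑ j ∈ Finset.Ico (0 : ℤ) n, if k = i then f j else 1) = (n : ℝ) := by
      intro k hk
      rw [Finset.sum_congr rfl fun j _ => if_neg (Finset.ne_of_mem_erase hk)]
      simp
    rw [Finset.prod_congr rfl h3, Finset.prod_const, Finset.card_erase_of_mem (Finset.mem_univ i),
      Finset.card_univ, Fintype.card_fin]
  · exact Finset.sum_congr rfl fun j _ => if_pos rfl

open Classical in
theorem cnt1 (n : ℕ) (c : ℝ) (hc : 0 ≤ c) :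
    ∑ j ∈ Finset.Ico (0 : ℤ) n, (if (j : ℝ) + 1 < c then (1 : ℝ) else 0) ≤ c := by
  rw [Finset.sum_ite, Finset.sum_const_zero, add_zero, Finset.sum_const, nsmul_eq_mul, mul_one]
  have h1 : (Finset.Ico (0 : ℤ) n).filter (fun j : ℤ => (j : ℝ) + 1 < c) ⊆ Finset.Ico (0 : ℤ) ⌊c⌋ := by
    intro j hj
    rw [Finset.mem_filter, Finset.mem_Ico] at hj
    rw [Finset.mem_Ico]
    refine ⟨hj.1.1, ?_⟩
    have h2 : ((j + 1 : ℤ) : ℝ) ≤ c := by
      push_cast
      exact hj.2.le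
    have h3 := Int.le_floor.2 h2
    omega
  have h2 := Finset.card_le_card h1
  rw [Int.card_Ico, sub_zero] at h2
  have h3 : ((⌊c⌋.toNat : ℕ) : ℝ) ≤ c := by
    have h4 : ((⌊c⌋.toNat : ℤ) : ℝ) = ((⌊c⌋ : ℤ) : ℝ) := by
      rw [Int.toNat_of_nonneg (Int.floor_nonneg.2 hc)]
    have h5 : ((⌊c⌋.toNat : ℕ) : ℝ) = ((⌊c⌋ : ℤ) : ℝ) := by
      rw [← h4]
      norm_cast
    rw [h5]
    exact Int.floor_le c
  exact le_trans (by exact_mod_cast h2) h3

open Classical in
theorem cnt2 (n : ℕ) (c : ℝ) (hc : 0 ≤ c) :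
    ∑ j ∈ Finset.Ico (0 : ℤ) n, (if (n : ℝ) - (j : ℝ) < c then (1 : ℝ) else 0) ≤ c := by
  refine le_trans (le_of_eq ?_) (cnt1 n c hc)
  refine Finset.sum_nbij' (fun j => (n : ℤ) - 1 - j) (fun j => (n : ℤ) - 1 - j) ?_ ?_ ?_ ?_ ?_
  · intro j hj
    rw [Finset.mem_Ico] at hj ⊢
    omega
  · intro j hj
    rw [Finset.mem_Ico] at hj ⊢
    omega
  · intro j _
    omega
  · intro j _
    omega
  · intro j _
    have : (((n : ℤ) - 1 - j : ℤ) : ℝ) + 1 = (n : ℝ) - (j : ℝ) := by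
      push_cast
      ring
    rw [this]

/-- the cut-off function -/
noncomputable def cf (δ t : ℝ) : ℝ := max 0 (min 1 (min ((t - δ) / δ) ((1 - δ - t) / δ)))

theorem cf_cont (δ : ℝ) : Continuous (cf δ) := by
  unfold cf
  fun_prop

theorem cf_nonneg (δ t : ℝ) : 0 ≤ cf δ t := le_max_left _ _

theorem cf_le (δ t : ℝ) : cf δ t ≤ 1 := max_le zero_le_one (min_le_left _ _)

theorem cf_zero {δ t : ℝ} (hδ : 0 < δ) (h : t ≤ δ ∨ 1 - δ ≤ t) : cf δ t = 0 := by
  unfold cf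
  refine max_eq_left ((min_le_right _ _).trans ?_)
  rcases h with h | h
  · exact (min_le_left _ _).trans (div_nonpos_of_nonpos_of_nonneg (by linarith) hδ.le)
  · exact (min_le_right _ _).trans (div_nonpos_of_nonpos_of_nonneg (by linarith) hδ.le)

theorem cf_one {δ t : ℝ} (hδ : 0 < δ) (h : 2 * δ ≤ t) (h' : t ≤ 1 - 2 * δ) : cf δ t = 1 := by
  unfold cf
  have h1 : (1 : ℝ) ≤ (t - δ) / δ := by
    rw [le_div_iff₀ hδ]
    linarith
  have h2 : (1 : ℝ) ≤ (1 - δ - t) / δ := by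
    rw [le_div_iff₀ hδ]
    linarith
  rw [min_eq_left (le_min h1 h2), max_eq_right zero_le_one]

theorem rs_cube (hBn : StBn) {d n : ℕ} {x : Zd d} (hx : x ∈ Bn d n) (i : Fin d) :
    0 ≤ rs n x i ∧ rs n x i ≤ 1 := by
  have h := ((hBn d n).2.2.2.1 x).1 hx i
  have h1 : (0 : ℝ) ≤ x i := by exact_mod_cast h.1
  have h2 : (x i : ℝ) + 1 ≤ n := by
    have : x i + 1 ≤ (n : ℤ) := by omega
    exact_mod_cast this
  have hn : (0 : ℝ) < (n : ℝ) + 1 := by positivity
  unfold rs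
  constructor
  · positivity
  · rw [div_le_one hn]
    linarith

theorem sk_rs {d : ℕ} (n : ℕ) (k : Fin d → ℕ) (x : Zd d) :
    sk n k x = ∏ i, Real.sin (Real.pi * k i * rs n x i) := by
  unfold sk
  refine Finset.prod_congr rfl fun i _ => ?_
  unfold kap rs
  congr 1
  ring

open Classical in
/-- number of points near the boundary -/
theorem bdry {d n : ℕ} (hn : 1 ≤ n) {δ : ℝ} (hδ : 0 ≤ δ) (i : Fin d) :
    ∑ x ∈ Bn d n, (if rs n x i < 2 * δ ∨ 1 - 2 * δ < rs n x i then (1 : ℝ) else 0) ≤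
      8 * δ * (n : ℝ) ^ d := by
  have hn1 : (1 : ℝ) ≤ n := by exact_mod_cast hn
  have hn0 : (0 : ℝ) < (n : ℝ) + 1 := by positivity
  have h1 : ∀ x : Zd d, (if rs n x i < 2 * δ ∨ 1 - 2 * δ < rs n x i then (1 : ℝ) else 0) ≤
      (fun j : ℤ => (if (j : ℝ) + 1 < 2 * δ * (n + 1) then (1 : ℝ) else 0) +
        (if (n : ℝ) - (j : ℝ) < 2 * δ * (n + 1) then (1 : ℝ) else 0)) (x i) := by
    intro x
    have a1 : (0 : ℝ) ≤ (if (x i : ℝ) + 1 < 2 * δ * (n + 1) then (1 : ℝ) else 0) := by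
      split_ifs <;> norm_num
    have a2 : (0 : ℝ) ≤ (if (n : ℝ) - (x i : ℝ) < 2 * δ * (n + 1) then (1 : ℝ) else 0) := by
      split_ifs <;> norm_num
    by_cases h : rs n x i < 2 * δ ∨ 1 - 2 * δ < rs n x i
    · rw [if_pos h]
      rcases h with h | h
      · unfold rs at h
        rw [div_lt_iff₀ hn0] at h
        change (1 : ℝ) ≤ (if (x i : ℝ) + 1 < 2 * δ * (n + 1) then (1 : ℝ) else 0) + _
        rw [if_pos h]
        linarith
      · unfold rs at h
        rw [lt_div_iff₀ hn0] at h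
        have h' : (n : ℝ) - (x i : ℝ) < 2 * δ * (n + 1) := by nlinarith
        change (1 : ℝ) ≤ _ + (if (n : ℝ) - (x i : ℝ) < 2 * δ * (n + 1) then (1 : ℝ) else 0)
        rw [if_pos h']
        linarith
    · rw [if_neg h]
      exact add_nonneg a1 a2
  refine (Finset.sum_le_sum fun x _ => h1 x).trans ?_
  rw [sum_coord d n i (fun j : ℤ => (if (j : ℝ) + 1 < 2 * δ * (n + 1) then (1 : ℝ) else 0) +
        (if (n : ℝ) - (j : ℝ) < 2 * δ * (n + 1) then (1 : ℝ) else 0)), Finset.sum_add_distrib]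
  have hc : 0 ≤ 2 * δ * ((n : ℝ) + 1) := by positivity
  have b1 := cnt1 n _ hc
  have b2 := cnt2 n _ hc
  have hd : 1 ≤ d := by
    have := i.isLt
    omega
  have h6 : (0 : ℝ) ≤ (n : ℝ) ^ (d - 1) := by positivity
  have h7 : (n : ℝ) ^ d = (n : ℝ) ^ (d - 1) * n := by
    rw [← pow_succ]
    congr 1
    omega
  rw [h7]
  calc (n : ℝ) ^ (d - 1) * _ ≤ (n : ℝ) ^ (d - 1) * (2 * δ * ((n : ℝ) + 1) + 2 * δ * ((n : ℝ) + 1)) :=
        mul_le_mul_of_nonneg_left (add_le_add b1 b2) h6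
    _ ≤ (n : ℝ) ^ (d - 1) * (8 * δ * n) := by
        refine mul_le_mul_of_nonneg_left ?_ h6
        nlinarith
    _ = 8 * δ * ((n : ℝ) ^ (d - 1) * n) := by ring

end DensM

theorem hDens (hSW : StSW) (hBn : StBn) : StDens := by
  classical
  intro d g hg ε hε
  -- a bound for `g` on the cube
  obtain ⟨M, hM⟩ := (isCompact_Icc (a := (0 : Fin d → ℝ)) (b := 1)).exists_bound_of_continuousOn
    hg.continuousOn
  have hM' : ∀ x : Fin d → ℝ, (∀ i, 0 ≤ x i ∧ x i ≤ 1) → |g x| ≤ max M 0 := by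
    intro x hx
    refine le_trans ?_ (le_max_left _ _)
    exact hM x ⟨fun i => (hx i).1, fun i => (hx i).2⟩
  set m := max M 0 with hm
  have hm0 : 0 ≤ m := le_max_right _ _
  -- the cut-off
  set δ : ℝ := min (1 / 4) (ε / (16 * (m + 1) * (d + 1))) with hδd
  have hδ0 : 0 < δ := lt_min (by norm_num) (by positivity)
  have hδ1 : δ < 1 / 2 := lt_of_le_of_lt (min_le_left _ _) (by norm_num)
  have hδ2 : δ ≤ ε / (16 * (m + 1) * (d + 1)) := min_le_right _ _
  let χ : (Fin d → ℝ) → ℝ := fun x => ∏ i, DensM.cf δ (x i)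
  have hχc : Continuous χ := continuous_finsetProd _ fun i _ => (DensM.cf_cont δ).comp (continuous_apply i)
  have hχ0 : ∀ x, 0 ≤ χ x := fun x => Finset.prod_nonneg fun i _ => DensM.cf_nonneg δ _
  have hχ1 : ∀ x, χ x ≤ 1 := fun x =>
    Finset.prod_le_one (fun i _ => DensM.cf_nonneg δ _) (fun i _ => DensM.cf_le δ _)
  obtain ⟨K, a, hK, ha⟩ := hSW d (fun x => g x * χ x) δ (hg.mul hχc) hδ0 hδ1 (by
    rintro x ⟨i, hi⟩
    have : χ x = 0 := Finset.prod_eq_zero (Finset.mem_univ i) (DensM.cf_zero hδ0 hi)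
    rw [this, mul_zero]) (ε / 2) (by positivity)
  refine ⟨K, a, hK, 1, fun n hn => ?_⟩
  have hcard : (Bn d n).card = n ^ d := (hBn d n).2.1
  -- pointwise
  have hpt : ∀ x ∈ Bn d n, |g (rs n x) - ∑ k ∈ K, a k * sk n k x| ≤
      m * ∑ i : Fin d, (if rs n x i < 2 * δ ∨ 1 - 2 * δ < rs n x i then (1 : ℝ) else 0) + ε / 2 := by
    intro x hx
    have hc := DensM.rs_cube hBn hx
    have h1 := ha (rs n x) hc
    have h2 : ∑ k ∈ K, a k * sk n k x =
        ∑ k ∈ K, a k * ∏ i, Real.sin (Real.pi * k i * rs n x i) :=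
      Finset.sum_congr rfl fun k _ => by rw [DensM.sk_rs]
    rw [h2]
    have h3 : |g (rs n x) - g (rs n x) * χ (rs n x)| ≤
        m * ∑ i : Fin d, (if rs n x i < 2 * δ ∨ 1 - 2 * δ < rs n x i then (1 : ℝ) else 0) := by
      have e : g (rs n x) - g (rs n x) * χ (rs n x) = g (rs n x) * (1 - χ (rs n x)) := by ring
      rw [e, abs_mul]
      have h4 : |1 - χ (rs n x)| ≤
          ∑ i : Fin d, (if rs n x i < 2 * δ ∨ 1 - 2 * δ < rs n x i then (1 : ℝ) else 0) := by
        by_cases hb : ∃ i, rs n x i < 2 * δ ∨ 1 - 2 * δ < rs n x i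
        · obtain ⟨i, hi⟩ := hb
          have h5 : (1 : ℝ) ≤
              ∑ i : Fin d, (if rs n x i < 2 * δ ∨ 1 - 2 * δ < rs n x i then (1 : ℝ) else 0) := by
            refine le_trans (le_of_eq (if_pos hi).symm) (Finset.single_le_sum
              (f := fun i => (if rs n x i < 2 * δ ∨ 1 - 2 * δ < rs n x i then (1 : ℝ) else 0))
              (fun j _ => ?_) (Finset.mem_univ i))
            split_ifs <;> norm_num
          refine le_trans ?_ h5
          rw [abs_le]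
          constructor
          · linarith [hχ1 (rs n x)]
          · linarith [hχ0 (rs n x)]
        · push Not at hb
          have h6 : χ (rs n x) = 1 := Finset.prod_eq_one fun i _ =>
            DensM.cf_one hδ0 (hb i).1 (hb i).2
          rw [h6, sub_self, abs_zero]
          refine Finset.sum_nonneg fun j _ => ?_
          split_ifs <;> norm_num
      exact mul_le_mul (hM' _ hc) h4 (abs_nonneg _) hm0
    calc |g (rs n x) - ∑ k ∈ K, a k * ∏ i, Real.sin (Real.pi * k i * rs n x i)|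
        = |(g (rs n x) - g (rs n x) * χ (rs n x)) +
          (g (rs n x) * χ (rs n x) - ∑ k ∈ K, a k * ∏ i, Real.sin (Real.pi * k i * rs n x i))| := by
          congr 1
          ring
      _ ≤ _ := (abs_add_le _ _).trans (add_le_add h3 h1)
  refine (Finset.sum_le_sum hpt).trans ?_
  rw [Finset.sum_add_distrib, ← Finset.mul_sum, Finset.sum_comm, Finset.sum_const, hcard, nsmul_eq_mul]
  have h8 : ∑ i : Fin d, ∑ x ∈ Bn d n,
      (if rs n x i < 2 * δ ∨ 1 - 2 * δ < rs n x i then (1 : ℝ) else 0) ≤ d * (8 * δ * (n : ℝ) ^ d) := by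
    refine (Finset.sum_le_sum fun i _ => DensM.bdry hn hδ0.le i).trans ?_
    rw [Finset.sum_const, Finset.card_univ, Fintype.card_fin, nsmul_eq_mul]
  have h9 : m * (d * (8 * δ * (n : ℝ) ^ d)) ≤ ε / 2 * (n : ℝ) ^ d := by
    have hp : (0 : ℝ) ≤ (n : ℝ) ^ d := by positivity
    have h10 : δ * (16 * (m + 1) * (d + 1)) ≤ ε := by
      rwa [le_div_iff₀ (by positivity)] at hδ2
    have h11 : m * (d * (8 * δ)) ≤ ε / 2 := by
      have hd0 : (0 : ℝ) ≤ d := Nat.cast_nonneg d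
      have h12 : m * d ≤ (m + 1) * (d + 1) := by nlinarith
      nlinarith [mul_le_mul_of_nonneg_left h12 hδ0.le]
    calc m * (d * (8 * δ * (n : ℝ) ^ d)) = m * (d * (8 * δ)) * (n : ℝ) ^ d := by ring
      _ ≤ ε / 2 * (n : ℝ) ^ d := mul_le_mul_of_nonneg_right h11 hp
  have h13 := mul_le_mul_of_nonneg_left h8 hm0
  push_cast
  linarith

end Pool.CN
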